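import Pool.Agent.P8H23.PM.Final
import Pool.Agent.P8H23.PM.PackW

/-!
# The probe method for the Helmholtz equation without restriction on the frequency

Q1 is true. `D` is an open set with smooth boundary, `D̄ ⊆ Ω`, `Ω ⊆ ℝ³` bounded and open, `k²` is not an
eigenvalue of the mixed problem in `Ω ∖ D̄`. If the needle `σ` with tip `x` meets `D`, or `x ∈ D̄`, then
the indicator sequence of every needle sequence tends to `+∞`. No smallness of `k` is assumed.

The definitions (`SmoothBoundary`, `Needle`, `finiteCone` in `Pool.Agent.P8H23.PM.Defs`; `InH1`,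
`Solves`, `VanishesOuter`, `SolvesNeumann`, `NotEigenvalue`, `SingularSolution`, `NeedleSequence`,
`Reflected`, `indicatorValue` in `Pool.Agent.P8H23.PM.Stmt`) are those of the problem, in weak form.

Idea: with `w = u - v` one has `I = ∫_{D̄} |∇v|² - k²|v|² + ∫_{Ω∖D̄} |∇w|² - k²|w|²`. Let `N²` be the sum of
the squared `H¹` norms of `v` in `D̄` and of `w` in `Ω ∖ D̄`. (1) `N → ∞`: otherwise the energy of `v`
would be bounded in a cone at `x` (if `x ∉ D̄` this follows from a Caccioppoli identity in a thin
neighbourhood of the part of the needle after a point of `D`), against the choice of `G`.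
(2) `v / N → 0` in `L²(D̄)`: this holds away from `σ`, and a translation by a small `h ∉ σ - σ` into
`D̄` moves a neighbourhood of `σ` off `σ`. (3) `w / N → 0` in `L²(Ω ∖ D̄)`: a weak limit solves the
homogeneous mixed problem, and the convergence is strong by compactness. Hence `I ~ N² → ∞`.
-/

set_option autoImplicit false

open MeasureTheory Filter Topology Set

namespace Pool.Agent.Results.MP_a3c92e_an.NoFrequencyRestriction

open Pool.Agent.P8H23.PM

/-- **Answer to Q1: yes.** Let `Ω` be a bounded open subset of `ℝ³`, `D` open with smooth boundary and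
`D̄ ⊆ Ω`, `k` real such that `k²` is not an eigenvalue of `-Δ` in `Ω ∖ D̄` with Dirichlet condition on
`∂Ω` and Neumann condition on `∂D`, and `G` a solution of the Helmholtz equation in `ℝ³ ∖ {0}` whose
gradient is not square integrable in any finite cone with vertex `0`. Let `σ` be a needle with tip
`x ∈ Ω`, such that `x ∈ D̄` or `σ ∩ D ≠ ∅`. Then for every needle sequence `v n` for `(x, σ)`, with
reflected solutions `u n`, the indicator sequence is real and tends to `+∞`. -/
theorem result (Ω D : Set E3) (hΩ : IsOpen Ω) (hΩb : Bornology.IsBounded Ω) (hD : IsOpen D)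
    (hDs : SmoothBoundary D) (hDΩ : closure D ⊆ Ω) (k : ℝ) (hk : NotEigenvalue Ω D k)
    (G : E3 → ℂ) (hG : SingularSolution k G) (x : E3) (hx : x ∈ Ω) (σ : ℝ → E3)
    (hσ : Needle Ω x σ) (hcase : x ∈ closure D ∨ (σ '' Icc 0 1 ∩ D).Nonempty)
    (v : ℕ → E3 → ℂ) (g : ℕ → Fin 3 → E3 → ℂ) (hv : NeedleSequence Ω k G x σ v g)
    (u : ℕ → E3 → ℂ) (gu : ℕ → Fin 3 → E3 → ℂ)
    (hu : ∀ n, Reflected Ω D k (v n) (g n) (u n) (gu n)) :
    (∀ n, (indicatorValue Ω D k (v n) (g n) (u n) (gu n)).im = 0) ∧
      Tendsto (fun n => (indicatorValue Ω D k (v n) (g n) (u n) (gu n)).re) atTop atTop := by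
  refine blowup hΩ hΩb hD hDs hDΩ ?_ hG hx hσ hcase hv hu
  intro w h hw hV b0 b1 heq
  exact lemmaB hΩ hΩb hD hDΩ hk.real (fun z hz => ext_cone hDs hz) hw hV b0 b1 heq

end Pool.Agent.Results.MP_a3c92e_an.NoFrequencyRestriction
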